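import Pool.Agent.N536.HK.Defs

/-!
# The ratio law and one half: definitions
-/

set_option autoImplicit false

open CategoryTheory AlgebraicGeometry Finset

universe u v

namespace Pool.Agent.Run7.h301.WC

open Pool.Agent.H914 VarClass Obj WeilCohomology Pool.Agent.TH133.PW Pool.Agent.N103.OC
  Pool.Agent.H447 Pool.Agent.N536.HK Module

section

variable {K V U : Type*} [Field K] [AddCommGroup V] [Module K V] [AddCommGroup U] [Module K U]

/-- `e` is an idempotent linear combination of the operators in `S`, and the only idempotents in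
`e A e` are `0` and `e`, where `A` is the set of all combinations: it is the projector to an
indecomposable direct summand. -/
def Indec (S : Set (V →ₗ[K] V)) (e : Module.End K V) : Prop :=
  e ∈ Submodule.span K S ∧ e * e = e ∧
    ∀ f ∈ Submodule.span K S, f * f = f → e * f = f → f * e = f → f = 0 ∨ f = e

/-- The dimension of the image under `e` of the sum of the `gr m` with `P m`. -/
noncomputable def partDim (gr : ℕ → Submodule K V) (P : ℕ → Prop) (e : Module.End K V) : ℕ :=
  finrank K ↥(Submodule.map e (⨆ m, ⨆ (_ : P m), gr m))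

/-- The image of `y` is contained in the span of `S`. -/
def ImageIn (S : Set V) (y : Module.End K V) : Prop := ∀ z, y z ∈ Submodule.span K S

/-- The images of `e` and `f` have dimensions `(a₀, a₁)` and `(b₀, b₁)` (even part, odd part) with
`a₀ ≠ a₁` and `a₀ b₁ = b₀ a₁`. -/
def SameRatio (gr : ℕ → Submodule K V) (gr' : ℕ → Submodule K U) (e : Module.End K V)
    (f : Module.End K U) : Prop :=
  partDim gr Even e ≠ partDim gr Odd e ∧
    partDim gr Even e * partDim gr' Odd f = partDim gr' Even f * partDim gr Odd e

/-- The images of `e` and `f` have dimensions `(a₀, a₁)` and `(b₀, b₁)` (even part, odd part) with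
`a₀ ≠ a₁` and `a₀ b₀ = a₁ b₁`. -/
def InverseRatio (gr : ℕ → Submodule K V) (gr' : ℕ → Submodule K U) (e : Module.End K V)
    (f : Module.End K U) : Prop :=
  partDim gr Even e ≠ partDim gr Odd e ∧
    partDim gr Even e * partDim gr' Even f = partDim gr Odd e * partDim gr' Odd f

end

variable {k : Type u} [Field k] {𝒱 : VarClass k} {ops : CycleOps 𝒱}

/-- `e` is the projector to an indecomposable direct summand of the motive of `X` (homological
equivalence, coefficients in `K`). -/
def IndecSummand (W : WeilCohomology.{u, v} ops) (X : 𝒱.Obj) (e : Module.End W.K (W.H X)) : Prop :=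
  Indec (cycleOperators W X X.dim) e

/-- The products of the pull backs of the elements of the images of `e` and `f`. -/
def products (W : WeilCohomology.{u, v} ops) {Y X : 𝒱.Obj} (e : Module.End W.K (W.H Y))
    (f : Module.End W.K (W.H X)) : Set (W.H (Y.prod X)) :=
  {x | ∃ a b, x = W.map (fst Y X) (e a) * W.map (snd Y X) (f b)}

/-- The image of `y` is contained in the tensor product of the images of `e` and `f`, the span of the
products of the pull backs of their elements. -/
def InTensor (W : WeilCohomology.{u, v} ops) {Y X : 𝒱.Obj} (e : Module.End W.K (W.H Y))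
    (f : Module.End W.K (W.H X)) (y : Module.End W.K (W.H (Y.prod X))) : Prop :=
  ImageIn (products W e f) y

/-- The tensor product of the images of `e` and `f` has an even direct summand, not zero (a direct
summand of the motive of `Y × X` with projector `y`). -/
def HasEven (W : WeilCohomology.{u, v} ops) {Y X : 𝒱.Obj} (e : Module.End W.K (W.H Y))
    (f : Module.End W.K (W.H X)) : Prop :=
  ∃ y : Module.End W.K (W.H (Y.prod X)), y ≠ 0 ∧ InTensor W e f y ∧
    EvenSummand (W.gr (Y.prod X)) (cycleOperators W (Y.prod X) (Y.prod X).dim) y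

/-- The tensor product of the images of `e` and `f` has an odd direct summand, not zero. -/
def HasOdd (W : WeilCohomology.{u, v} ops) {Y X : 𝒱.Obj} (e : Module.End W.K (W.H Y))
    (f : Module.End W.K (W.H X)) : Prop :=
  ∃ y : Module.End W.K (W.H (Y.prod X)), y ≠ 0 ∧ InTensor W e f y ∧
    OddSummand (W.gr (Y.prod X)) (cycleOperators W (Y.prod X) (Y.prod X).dim) y

/-- **The ratio law.** Let `e` and `f` be the projectors to indecomposable direct summands of the
motives of `Y` and `X` (homological equivalence, coefficients in `K`), with cohomology of dimensions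
`(a₀, a₁)` and `(b₀, b₁)` (even part, odd part). If their tensor product has an even direct summand,
not zero, then `a₀ ≠ a₁` and `a₀ b₁ = b₀ a₁`. If it has an odd one, then `a₀ ≠ a₁` and
`a₀ b₀ = a₁ b₁`. -/
def RatioLaw (W : WeilCohomology.{u, v} ops) : Prop :=
  ∀ (Y X : 𝒱.Obj) (e : Module.End W.K (W.H Y)) (f : Module.End W.K (W.H X)),
    IndecSummand W Y e → IndecSummand W X f →
      (HasEven W e f → SameRatio (W.gr Y) (W.gr X) e f) ∧
      (HasOdd W e f → InverseRatio (W.gr Y) (W.gr X) e f)

/-- The tensor product of two indecomposable direct summands does not have both an even and an odd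
direct summand (not zero). -/
def NotBoth (W : WeilCohomology.{u, v} ops) : Prop :=
  ∀ (Y X : 𝒱.Obj) (e : Module.End W.K (W.H Y)) (f : Module.End W.K (W.H X)),
    IndecSummand W Y e → IndecSummand W X f → ¬ (HasEven W e f ∧ HasOdd W e f)

/-- The tensor square of an indecomposable direct summand has no odd direct summand (not zero). -/
def NoOddInSquare (W : WeilCohomology.{u, v} ops) : Prop :=
  ∀ (X : 𝒱.Obj) (e : Module.End W.K (W.H X)), IndecSummand W X e → ¬ HasOdd W e e

/-- If the even and the odd part of an indecomposable direct summand have the same dimension, its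
tensor products with indecomposable summands have no direct summand (not zero) of pure parity. -/
def NoneIfBalanced (W : WeilCohomology.{u, v} ops) : Prop :=
  ∀ (Y X : 𝒱.Obj) (e : Module.End W.K (W.H Y)) (f : Module.End W.K (W.H X)),
    IndecSummand W Y e → IndecSummand W X f →
    partDim (W.gr Y) Even e = partDim (W.gr Y) Odd e → ¬ HasEven W e f ∧ ¬ HasOdd W e f

/-- `c(Y × X) ≤ c(Y) c(X) + κ (b(Y) - c(Y)) (b(X) - c(X))` with `κ = 1 - 2 (m - 1) / m^2`, where `b` is
`cohDim` and `c` is `evenOddDim`. -/
def SharpBound (W : WeilCohomology.{u, v} ops) (m : ℕ) (Y X : 𝒱.Obj) : Prop :=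
  m ^ 2 * evenOddDim W (Y.prod X) + 2 * (m - 1) *
      ((cohDim W Y - evenOddDim W Y) * (cohDim W X - evenOddDim W X)) ≤
    m ^ 2 * (evenOddDim W Y * evenOddDim W X +
      (cohDim W Y - evenOddDim W Y) * (cohDim W X - evenOddDim W X))

/-- The number `θ(b) = (b^2 - 2 b + 2) / (2 b^2 - 2 b + 2)`, which is smaller than `1 / 2` if
`b ≥ 2`. -/
noncomputable def theta (b : ℕ) : ℝ := ((b : ℝ) ^ 2 - 2 * b + 2) / (2 * (b : ℝ) ^ 2 - 2 * b + 2)

/-- For each `η > θ(b(X))` there are arbitrarily large `n` such that the largest direct summand of the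
motive of `X^n` which is the sum of an even and an odd one has dimension less than `η b(X)^n`. -/
def BelowTheta (W : WeilCohomology.{u, v} ops) (X : 𝒱.Obj) : Prop :=
  ∀ η : ℝ, theta (cohDim W X) < η → ∀ n₀ : ℕ, ∃ n ≥ n₀, 1 ≤ n ∧
    (evenOddDim W (pw X n) : ℝ) < η * (cohDim W X : ℝ) ^ n

/-- **One half suffices.** The sign conjecture for `X` holds if and only if for all large `n` the
largest direct summand of the motive of `X^n` which is the sum of an even and an odd one has at least
half of the dimension of the cohomology of `X^n`; and it holds for all varieties if and only if this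
is so for all varieties. -/
def OneHalf (W : WeilCohomology.{u, v} ops) : Prop :=
  (∀ X : 𝒱.Obj, SignStd W X ↔
    ∃ n₀, ∀ n ≥ n₀, cohDim W (pw X n) ≤ 2 * evenOddDim W (pw X n)) ∧
  ((∀ X : 𝒱.Obj, SignStd W X) ↔ ∀ X : 𝒱.Obj, cohDim W X ≤ 2 * evenOddDim W X)

end Pool.Agent.Run7.h301.WC
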