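import Pool.Agent.N536.HK.Main
import Pool.Agent.Run7.h301.SL.Induct

/-!
# The algebras of correspondences of a Weil cohomology
-/

set_option autoImplicit false
set_option linter.unusedSectionVars false

open CategoryTheory AlgebraicGeometry Finset TensorProduct Module

universe u v

namespace Pool.Agent.Run7.h301.WC

open Pool.Agent.H914 VarClass Obj WeilCohomology Pool.Agent.N190.CB Pool.Agent.N103.OC
  Pool.Agent.TH133.PW Pool.Agent.H447 Pool.Agent.N536.SG

variable {k : Type u} [Field k] {𝒱 : VarClass k} {ops : CycleOps 𝒱}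
  {W : WeilCohomology.{u, v} ops} {X Y : 𝒱.Obj}

lemma isPA (W : WeilCohomology.{u, v} ops) (X : 𝒱.Obj) :
    SL.IsPA (par (W.isInternal X)) (KOp W X X 0) where
  sq := par_mul_par _
  one := KOp.id X
  mul := fun _ ha _ hb => kop_mul ha hb
  comm := fun _ ha => Pool.Agent.N536.HK.par_comm ha

lemma extOp_eq (F : Module.End W.K (W.H Y)) (G : Module.End W.K (W.H X)) :
    extOp W F G = SL.ext (kappa W Y X) F G := rfl

lemma isProd (W : WeilCohomology.{u, v} ops) (Y X : 𝒱.Obj) :
    SL.IsProd (kappa W Y X) (par (W.isInternal Y)) (KOp W Y Y 0)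
    (par (W.isInternal X)) (KOp W X X 0) (par (W.isInternal (Y.prod X)))
    (KOp W (Y.prod X) (Y.prod X) 0) where
  par := par_prod
  mem := fun F hF G hG => KOp.cast (KOp.ext hF hG) (by ring)
  tr := by
    obtain ⟨L, hL⟩ := SL.exists_ptr (kappa W Y X) (par (W.isInternal X))
    refine ⟨L, fun y hy => ?_, hL⟩
    obtain ⟨T, hT, h1⟩ := exists_ptrace hy (KOp.id X)
    have key : ∀ (F' : Module.End W.K (W.H Y)) (z : Module.End W.K (W.H (Y.prod X))),
        str W Y (L z * F') = str W (Y.prod X) (z * SL.ext (kappa W Y X) F' 1) := by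
      intro F' z
      induction z using SL.ext_induction (E := kappa W Y X) with
      | h0 => simp
      | hadd x y hx hy => rw [map_add, add_mul, map_add, hx, hy, add_mul, map_add]
      | h F G =>
        rw [hL, SL.ext_mul, mul_one, smul_mul_assoc, map_smul, smul_eq_mul, ← extOp_eq, str_ext',
          mul_comm]
        rfl
    have h2 : L y = T := by
      apply eq_of_str
      intro f
      rw [← h1]
      exact key _ _
    rw [h2]
    exact KOp.cast hT (by ring)

/-- The Kunneth isomorphism with the factors exchanged (without sign). -/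
noncomputable def kappa' (W : WeilCohomology.{u, v} ops) (Y X : 𝒱.Obj) :
    (W.H X ⊗[W.K] W.H Y) ≃ₗ[W.K] W.H (Y.prod X) :=
  (TensorProduct.comm W.K (W.H X) (W.H Y)).trans (kappa W Y X)

lemma ext_kappa' (F : Module.End W.K (W.H Y)) (G : Module.End W.K (W.H X)) :
    SL.ext (kappa' W Y X) G F = SL.ext (kappa W Y X) F G := by
  apply LinearMap.ext
  intro x
  obtain ⟨t, rfl⟩ := (kappa W Y X).surjective x
  rw [SL.ext, SL.ext, LinearEquiv.conj_apply_apply, LinearEquiv.conj_apply_apply,
    LinearEquiv.symm_apply_apply]
  have h1 : (kappa' W Y X).symm ((kappa W Y X) t) =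
      (TensorProduct.comm W.K (W.H X) (W.H Y)).symm t := by
    rw [kappa', LinearEquiv.symm_trans_apply, LinearEquiv.symm_apply_apply]
  rw [h1]
  induction t using TensorProduct.induction_on with
  | zero => simp
  | tmul a b => rfl
  | add x y hx hy =>
    have hx' := hx
    simp only [map_add]
    have e1 : (kappa' W Y X).symm ((kappa W Y X) x) =
        (TensorProduct.comm W.K (W.H X) (W.H Y)).symm x := by
      rw [kappa', LinearEquiv.symm_trans_apply, LinearEquiv.symm_apply_apply]
    have e2 : (kappa' W Y X).symm ((kappa W Y X) y) =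
        (TensorProduct.comm W.K (W.H X) (W.H Y)).symm y := by
      rw [kappa', LinearEquiv.symm_trans_apply, LinearEquiv.symm_apply_apply]
    rw [hx e1, hy e2]

/-- A class of odd degree gives an operator which anticommutes with the parity. -/
lemma par_corr_odd {f : W.H (X.prod X)} {r : ℕ} (hf : f ∈ W.gr (X.prod X) (2 * r + 1)) :
    par (W.isInternal X) * W.corr f = -(W.corr f * par (W.isInternal X)) := by
  apply gr_ext (W.isInternal X)
  intro i a ha
  rw [LinearMap.neg_apply, Module.End.mul_apply, Module.End.mul_apply]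
  have hpa : par (W.isInternal X) a = (-1 : W.K) ^ i • a := by rw [par, scal_apply _ _ ha]
  rw [hpa, map_smul]
  have h1 := W.push_mem (snd X X) (W.mul_mem hf (W.map_mem (fst X X) ha))
  have h2 : W.corr f a = W.push (snd X X) (f * W.map (fst X X) a) := corr_apply _ _ _
  rw [← h2, dim_prod] at h1
  by_cases hneg : ((2 * r + 1 + i : ℕ) : ℤ) + 2 * ((X.dim : ℤ) - ((X.dim + X.dim : ℕ) : ℤ)) < 0
  · rw [grZ_of_neg hneg, Submodule.mem_bot] at h1
    rw [h1, map_zero, smul_zero, neg_zero]
  · obtain ⟨m, hm⟩ := Int.eq_ofNat_of_zero_le (not_lt.1 hneg)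
    rw [hm, grZ_natCast] at h1
    rw [par, scal_apply _ _ h1, ← neg_smul]
    congr 1
    have h3 : m + 2 * X.dim = 2 * r + 1 + i := by push_cast at hm; omega
    have h4 : (-1 : W.K) ^ m * (-1) ^ (2 * X.dim) = (-1) ^ (2 * r + 1 + i) := by
      rw [← pow_add, h3]
    rw [pow_add, pow_add, pow_mul, pow_mul] at h4
    simpa using h4

lemma str_comm_zero {D : Module.End W.K (W.H X)}
    (hD : par (W.isInternal X) * D = D * par (W.isInternal X)) {f : W.H (X.prod X)} {r : ℕ}
    (hf : f ∈ W.gr (X.prod X) (2 * r + 1)) : str W X (D * W.corr f) = 0 := by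
  obtain ⟨C, hC⟩ : ∃ C : Module.End W.K (W.H X), C = W.corr f := ⟨_, rfl⟩
  have h0 : par (W.isInternal X) * C = -(C * par (W.isInternal X)) := by
    rw [hC]
    exact par_corr_odd hf
  have h1 : str W X (D * C) = -str W X (D * C) := by
    calc str W X (D * C)
        = LinearMap.trace W.K (W.H X) (par (W.isInternal X) * (D * C)) := str_apply _
      _ = LinearMap.trace W.K (W.H X) (D * (par (W.isInternal X) * C)) := by
          rw [← mul_assoc, hD, mul_assoc]
      _ = -LinearMap.trace W.K (W.H X) (D * (C * par (W.isInternal X))) := by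
          have h9 : D * (-(C * par (W.isInternal X))) = -(D * (C * par (W.isInternal X))) :=
            LinearMap.comp_neg _ _
          rw [h0, h9, map_neg]
      _ = -str W X (D * C) := by
          rw [str_apply, ← mul_assoc, LinearMap.trace_mul_comm]
  have h2 : (2 : W.K) * str W X (D * C) = 0 := by linear_combination h1
  rw [← hC]
  exact (mul_eq_zero.1 h2).resolve_left two_ne_zero

lemma isProd' (W : WeilCohomology.{u, v} ops) (Y X : 𝒱.Obj) :
    SL.IsProd (kappa' W Y X) (par (W.isInternal X)) (KOp W X X 0)
    (par (W.isInternal Y)) (KOp W Y Y 0) (par (W.isInternal (Y.prod X)))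
    (KOp W (Y.prod X) (Y.prod X) 0) where
  par := by rw [ext_kappa']; exact par_prod
  mem := fun G hG F hF => by rw [ext_kappa']; exact KOp.cast (KOp.ext hF hG) (by ring)
  tr := by
    obtain ⟨L, hL⟩ := SL.exists_ptr (kappa' W Y X) (par (W.isInternal Y))
    refine ⟨L, fun y hy => ?_, hL⟩
    obtain ⟨T, hT, h1⟩ := exists_ptrace' hy (KOp.id Y)
    have hT0 : T ∈ KOp W X X 0 := KOp.cast hT (by ring)
    have key : ∀ (F' : Module.End W.K (W.H X)) (z : Module.End W.K (W.H (Y.prod X))),
        str W X (L z * F') = str W (Y.prod X) (z * SL.ext (kappa' W Y X) F' 1) := by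
      intro F' z
      induction z using SL.ext_induction (E := kappa' W Y X) with
      | h0 => simp
      | hadd x y hx hy => rw [map_add, add_mul, map_add, hx, hy, add_mul, map_add]
      | h F G =>
        rw [hL, SL.ext_mul, mul_one, smul_mul_assoc, map_smul, smul_eq_mul, ext_kappa',
          ← extOp_eq, str_ext']
        rfl
    have hq : SL.ext (kappa' W Y X) (par (W.isInternal X)) (par (W.isInternal Y)) =
        par (W.isInternal (Y.prod X)) := by rw [ext_kappa']; exact par_prod.symm
    have hconj : ∀ z : Module.End W.K (W.H (Y.prod X)),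
        L (par (W.isInternal (Y.prod X)) * z * par (W.isInternal (Y.prod X))) =
          par (W.isInternal X) * L z * par (W.isInternal X) := by
      intro z
      induction z using SL.ext_induction (E := kappa' W Y X) with
      | h0 => simp
      | hadd x y hx hy => rw [mul_add, add_mul, map_add, hx, hy, map_add, mul_add, add_mul]
      | h F G =>
        rw [← hq, SL.ext_mul, SL.ext_mul, hL, hL, mul_smul_comm, smul_mul_assoc]
        congr 1
        rw [← mul_assoc, ← mul_assoc, par_mul_par, one_mul, LinearMap.trace_mul_comm]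
    have hcomm : par (W.isInternal X) * L y = L y * par (W.isInternal X) := by
      have h3 := hconj y
      rw [Pool.Agent.N536.HK.par_comm hy, mul_assoc, par_mul_par, mul_one] at h3
      rw [h3]
      calc par (W.isInternal X) * (par (W.isInternal X) * L y * par (W.isInternal X))
          = (par (W.isInternal X) * par (W.isInternal X)) * (L y * par (W.isInternal X)) := by
            simp only [mul_assoc]
        _ = L y * par (W.isInternal X) := by rw [par_mul_par, one_mul]
        _ = (par (W.isInternal X) * L y * par (W.isInternal X)) * par (W.isInternal X) := by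
            rw [← h3]
    have h2 : L y = T := by
      apply eq_of_str
      intro f
      refine gr_induction (W.isInternal (X.prod X))
        (p := fun f => str W X (L y * W.corr f) = str W X (T * W.corr f)) ?_ ?_ f
      · intro m f hf
        rcases Nat.even_or_odd' m with ⟨r, rfl | rfl⟩
        · rw [← h1 hf, key, ext_kappa']
          rfl
        · rw [str_comm_zero hcomm hf, str_comm_zero (Pool.Agent.N536.HK.par_comm hT0) hf]
      · intro f g hf hg
        rw [W.corr_add, mul_add, mul_add, map_add, map_add, hf, hg]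
    rw [h2]
    exact hT0

lemma isSwap (W : WeilCohomology.{u, v} ops) (Y X : 𝒱.Obj) :
    SL.IsSwap (kappa W Y X) (kappa' W Y X) (LinearEquiv.refl W.K (W.H (Y.prod X)))
      (par (W.isInternal Y)) (par (W.isInternal X)) (par (W.isInternal (Y.prod X)))
      (KOp W (Y.prod X) (Y.prod X) 0) (par (W.isInternal (Y.prod X)))
      (KOp W (Y.prod X) (Y.prod X) 0) where
  mem := fun _ hy => hy
  par := rfl
  ext := fun F G _ _ => by rw [ext_kappa']; rfl

lemma isSwap' (W : WeilCohomology.{u, v} ops) (Y X : 𝒱.Obj) :
    SL.IsSwap (kappa' W Y X) (kappa W Y X) (LinearEquiv.refl W.K (W.H (Y.prod X)))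
      (par (W.isInternal X)) (par (W.isInternal Y)) (par (W.isInternal (Y.prod X)))
      (KOp W (Y.prod X) (Y.prod X) 0) (par (W.isInternal (Y.prod X)))
      (KOp W (Y.prod X) (Y.prod X) 0) where
  mem := fun _ hy => hy
  par := rfl
  ext := fun F G _ _ => by rw [ext_kappa']; rfl

end Pool.Agent.Run7.h301.WC
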