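import Pool.Agent.Run7.h301.WC.Geo
import Pool.Agent.Run7.h301.WC.Defs
import Pool.Agent.Run7.h301.SL.Num

/-!
# The ratio law and one half for Weil cohomologies
-/

set_option autoImplicit false
set_option linter.unusedSectionVars false

open CategoryTheory AlgebraicGeometry Finset TensorProduct Module

universe u v

namespace Pool.Agent.Run7.h301.WC

open Pool.Agent.H914 VarClass Obj WeilCohomology Pool.Agent.N190.CB Pool.Agent.N103.OC
  Pool.Agent.TH133.PW Pool.Agent.H447 Pool.Agent.N536.SG Pool.Agent.N536.HK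

variable {k : Type u} [Field k] {𝒱 : VarClass k} {ops : CycleOps 𝒱}
  {W : WeilCohomology.{u, v} ops} {X Y : 𝒱.Obj}

lemma evenOddDim_eq_cdim (W : WeilCohomology.{u, v} ops) (X : 𝒱.Obj) :
    evenOddDim W X = SL.cdim (par (W.isInternal X)) (KOp W X X 0) := by
  obtain ⟨e, he, hN⟩ := SL.exists_halves (isPA W X)
  rw [SL.cdim_eq (isPA W X) he hN]
  refine evenOddDim_eq (W := W) (X := X) (e := e) ?_ ?_
  · obtain ⟨e0, h0, e1, h1, h2, h3, h4⟩ := he
    exact ⟨e0, ⟨h0.1, h0.2⟩, e1, ⟨h1.1, h1.2⟩, h2, h3, h4⟩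
  · intro s hs a ha
    rw [str_pure ha, hN s hs a ⟨ha.1, ha.2⟩, mul_zero]

/-- The image under `e` of a part of the cohomology is the image of `ppart * e`. -/
lemma map_part {e : Module.End W.K (W.H X)} (he : e ∈ KOp W X X 0) {s : W.K} (hs : s * s = 1)
    {P : ℕ → Prop} (hP : ∀ m, P m → (-1 : W.K) ^ m = s) (hP' : ∀ m, ¬ P m → (-1 : W.K) ^ m = -s) :
    Submodule.map e (⨆ m, ⨆ (_ : P m), W.gr X m) =
      LinearMap.range (SL.ppart (par (W.isInternal X)) s * e) := by
  have hcomm := SL.ppart_comm (par_comm he) s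
  have hpp : ∀ m, ∀ x ∈ W.gr X m, SL.ppart (par (W.isInternal X)) s x =
      (2 : W.K)⁻¹ • (x + (s * (-1) ^ m) • x) := by
    intro m x hx
    rw [SL.ppart, LinearMap.smul_apply, LinearMap.add_apply, LinearMap.smul_apply,
      Module.End.one_apply, par, scal_apply _ _ hx, smul_smul]
  have hfix : ∀ m, P m → ∀ x ∈ W.gr X m, SL.ppart (par (W.isInternal X)) s x = x := by
    intro m hm x hx
    rw [hpp m x hx, hP m hm, hs, one_smul, ← two_smul W.K x, smul_smul,
      inv_mul_cancel₀ (two_ne_zero : (2 : W.K) ≠ 0), one_smul]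
  have hkill : ∀ m, ¬ P m → ∀ x ∈ W.gr X m, SL.ppart (par (W.isInternal X)) s x = 0 := by
    intro m hm x hx
    rw [hpp m x hx, hP' m hm, mul_neg, hs, neg_smul, one_smul, add_neg_cancel, smul_zero]
  apply le_antisymm
  · rw [Submodule.map_le_iff_le_comap]
    refine iSup_le fun m => iSup_le fun hm => ?_
    intro x hx
    refine ⟨x, ?_⟩
    rw [hcomm, Module.End.mul_apply, hfix m hm x hx]
  · rw [hcomm]
    rintro _ ⟨x, rfl⟩
    rw [Module.End.mul_apply]
    refine ⟨SL.ppart (par (W.isInternal X)) s x, ?_, rfl⟩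
    refine gr_induction (W.isInternal X) (p := fun x => SL.ppart (par (W.isInternal X)) s x ∈
      ((⨆ m, ⨆ (_ : P m), W.gr X m : Submodule W.K (W.H X)) : Set (W.H X))) ?_ ?_ x
    · intro m y hy
      by_cases hm : P m
      · rw [hfix m hm y hy]
        exact Submodule.mem_iSup_of_mem m (Submodule.mem_iSup_of_mem hm hy)
      · rw [hkill m hm y hy]
        exact Submodule.zero_mem _
    · intro y z hy hz
      rw [map_add]
      exact Submodule.add_mem _ hy hz

lemma partDim_even {e : Module.End W.K (W.H X)} (he : e ∈ KOp W X X 0) :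
    partDim (W.gr X) Even e = SL.sdim (par (W.isInternal X)) e 1 := by
  rw [partDim, SL.sdim, map_part he (by ring : (1 : W.K) * 1 = 1)
    (fun m hm => hm.neg_one_pow) (fun m hm => (Nat.not_even_iff_odd.1 hm).neg_one_pow)]

lemma partDim_odd {e : Module.End W.K (W.H X)} (he : e ∈ KOp W X X 0) :
    partDim (W.gr X) Odd e = SL.sdim (par (W.isInternal X)) e (-1) := by
  rw [partDim, SL.sdim, map_part he (by ring : (-1 : W.K) * (-1) = 1)
    (fun m hm => hm.neg_one_pow) (fun m hm => by
      rw [(Nat.not_odd_iff_even.1 hm).neg_one_pow, neg_neg])]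

lemma indec_iff {e : Module.End W.K (W.H X)} (he : IndecSummand W X e) :
    SL.Prim (KOp W X X 0) e := by
  have h := he
  unfold IndecSummand Indec at h
  rw [span_cycleOperators0] at h
  exact h

lemma ext_of_inTensor {e : Module.End W.K (W.H Y)} {f : Module.End W.K (W.H X)}
    (hee : e * e = e) (hff : f * f = f) {y : Module.End W.K (W.H (Y.prod X))}
    (h : InTensor W e f y) : extOp W e f * y = y := by
  apply LinearMap.ext
  intro z
  rw [Module.End.mul_apply]
  have h1 := h z
  generalize y z = w at h1 ⊢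
  induction h1 using Submodule.span_induction with
  | mem x hx =>
    obtain ⟨a, b, rfl⟩ := hx
    rw [extOp_tmul, ← Module.End.mul_apply, ← Module.End.mul_apply, hee, hff]
  | zero => rw [map_zero]
  | add x x' _ _ hx hx' => rw [map_add, hx, hx']
  | smul c x _ hx => rw [map_smul, hx]

/-- **The ratio law.** -/
theorem ratioLaw (W : WeilCohomology.{u, v} ops) : RatioLaw W := by
  intro Y X e f he hf
  have he' := indec_iff he
  have hf' := indec_iff hf
  have h1 := SL.ratio (isPA W Y) (isPA W X) (isPA W (Y.prod X)) (isPA W (Y.prod X))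
    (isProd W Y X) (isProd' W Y X) (isSwap W Y X) he' hf'
  have h2 : ∀ y : Module.End W.K (W.H (Y.prod X)), y ≠ 0 → InTensor W e f y → y * y = y →
      LinearMap.trace W.K (W.H (Y.prod X)) (SL.ext (kappa W Y X) e f * y) ≠ 0 := by
    intro y hy0 hy hyy
    have h3 : SL.ext (kappa W Y X) e f * y = y := ext_of_inTensor he'.2.1 hf'.2.1 hy
    rw [h3, Pool.Agent.N536.HK.trace_idem hyy]
    intro h4
    apply hy0
    exact LinearMap.range_eq_bot.1 (Submodule.finrank_eq_zero.1 (by exact_mod_cast h4))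
  rw [SameRatio, InverseRatio, partDim_even he'.1, partDim_odd he'.1, partDim_even hf'.1,
    partDim_odd hf'.1]
  constructor
  · rintro ⟨y, hy0, hy, h⟩
    obtain ⟨h3, h4⟩ := even_iff_mem.1 h
    exact h1.1 y ⟨h3.1, h3.2⟩ (h2 y hy0 hy h4)
  · rintro ⟨y, hy0, hy, h⟩
    obtain ⟨h3, h4⟩ := odd_iff_mem.1 h
    exact h1.2 y ⟨h3.1, h3.2⟩ (h2 y hy0 hy h4)

lemma notBoth (W : WeilCohomology.{u, v} ops) : NotBoth W := by
  intro Y X e f he hf ⟨h0, h1⟩
  obtain ⟨hne, h2⟩ := (ratioLaw W Y X e f he hf).1 h0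
  obtain ⟨-, h3⟩ := (ratioLaw W Y X e f he hf).2 h1
  have hf' := indec_iff hf
  have he' := indec_iff he
  have h6 := SL.sdim_add (isPA W X) hf'.1 hf'.2.1
  rw [← partDim_even hf'.1, ← partDim_odd hf'.1] at h6
  set a := partDim (W.gr Y) Even e
  set a' := partDim (W.gr Y) Odd e
  set b := partDim (W.gr X) Even f
  set b' := partDim (W.gr X) Odd f
  have hb' : b' = 0 := by
    by_contra hb
    apply hne
    have h7 : b' * (a * a) = b' * (a' * a') := by
      calc b' * (a * a) = a * (a * b') := by ring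
        _ = a * (b * a') := by rw [h2]
        _ = a' * (a * b) := by ring
        _ = a' * (a' * b') := by rw [h3]
        _ = b' * (a' * a') := by ring
    exact Nat.mul_self_inj.1 (Nat.eq_of_mul_eq_mul_left (Nat.pos_of_ne_zero hb) h7)
  have hb : b = 0 := by
    by_contra hb
    apply hne
    rw [hb', mul_zero] at h2 h3
    rcases Nat.mul_eq_zero.1 h3 with h8 | h8
    · rcases Nat.mul_eq_zero.1 h2.symm with h9 | h9
      · exact absurd h9 hb
      · rw [h8, h9]
    · exact absurd h8 hb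
  rw [hb, hb', add_zero] at h6
  have hf0 : f = 0 := LinearMap.range_eq_bot.1 (Submodule.finrank_eq_zero.1 h6.symm)
  obtain ⟨y, hy0, hy, -⟩ := h0
  apply hy0
  rw [← ext_of_inTensor he'.2.1 hf'.2.1 hy, hf0, extOp_zero_right, zero_mul]

lemma noOddInSquare (W : WeilCohomology.{u, v} ops) : NoOddInSquare W := by
  intro X e he h1
  obtain ⟨hne, h2⟩ := (ratioLaw W X X e e he he).2 h1
  exact hne (Nat.mul_self_inj.1 h2)

lemma noneIfBalanced (W : WeilCohomology.{u, v} ops) : NoneIfBalanced W := by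
  intro Y X e f he hf hb
  exact ⟨fun h => ((ratioLaw W Y X e f he hf).1 h).1 hb,
    fun h => ((ratioLaw W Y X e f he hf).2 h).1 hb⟩

/-- **The sharper bound**, with the dimension of the first factor. -/
theorem sharpBound_left (W : WeilCohomology.{u, v} ops) (Y X : 𝒱.Obj) :
    SharpBound W (cohDim W Y) Y X := by
  unfold SharpBound
  by_cases h0 : cohDim W Y = 0
  · rw [h0]
    simp
  obtain ⟨m, hm⟩ := Nat.exists_eq_succ_of_ne_zero h0
  have h1 := SL.cdim_prod_sharp (isPA W Y) (isPA W X) (isPA W (Y.prod X)) (isPA W (Y.prod X))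
    (isProd W Y X) (isProd' W Y X) (isSwap W Y X) (m := m) (by
      have : cohDim W Y ≤ m + 1 := by omega
      exact this)
  rw [← evenOddDim_eq_cdim, ← evenOddDim_eq_cdim, ← evenOddDim_eq_cdim] at h1
  have h3 : cohDim W Y - 1 = m := by omega
  rw [h3, hm]
  rw [← hm]
  have h4 : m + 1 = cohDim W Y := by omega
  rw [h4] at h1
  exact h1

/-- **The sharper bound**, with the dimension of the second factor. -/
theorem sharpBound_right (W : WeilCohomology.{u, v} ops) (Y X : 𝒱.Obj) :
    SharpBound W (cohDim W X) Y X := by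
  unfold SharpBound
  by_cases h0 : cohDim W X = 0
  · rw [h0]
    simp
  obtain ⟨m, hm⟩ := Nat.exists_eq_succ_of_ne_zero h0
  have h1 := SL.cdim_prod_sharp (isPA W X) (isPA W Y) (isPA W (Y.prod X)) (isPA W (Y.prod X))
    (isProd' W Y X) (isProd W Y X) (isSwap' W Y X) (m := m) (by
      have : cohDim W X ≤ m + 1 := by omega
      exact this)
  rw [← evenOddDim_eq_cdim, ← evenOddDim_eq_cdim, ← evenOddDim_eq_cdim] at h1
  have h3 : cohDim W X - 1 = m := by omega
  have h4 : m + 1 = cohDim W X := by omega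
  rw [h4] at h1
  rw [h3, mul_comm (cohDim W Y - evenOddDim W Y), mul_comm (evenOddDim W Y)]
  exact h1

lemma one_le_of_not (hC : ¬ SignStd W X) : evenOddDim W X + 1 ≤ cohDim W X :=
  lt_of_le_of_ne (evenOddDim_le W X) fun h => hC (sign_of_eq h)

/-- **The law below one half.** -/
theorem belowTheta (hC : ¬ SignStd W X) : BelowTheta W X := by
  intro η hη n₀
  have hb2 : 2 ≤ cohDim W X := by
    rw [cohDim_eq_total]
    exact two_le_total hC
  refine SL.share_below (c := fun n => evenOddDim W (pw X n)) hb2 (one_le_of_not hC) ?_ ?_ hη n₀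
  · intro n hn
    obtain ⟨n, rfl⟩ := Nat.exists_eq_add_of_le' hn
    rw [← cohDim_pw]
    exact evenOddDim_le W _
  · intro n hn
    obtain ⟨n, rfl⟩ := Nat.exists_eq_add_of_le' hn
    have h1 := sharpBound_right W (pw X (n + 1)) X
    unfold SharpBound at h1
    rw [cohDim_pw] at h1
    have h2 : pw X (n + 1 + 1) = (pw X (n + 1)).prod X := rfl
    rw [h2, mul_comm (cohDim W X - evenOddDim W X), mul_comm (evenOddDim W X)]
    exact h1

lemma theta_lt {b : ℕ} (hb : 2 ≤ b) : theta b < 1 / 2 := by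
  have hbR : (2 : ℝ) ≤ b := by exact_mod_cast hb
  rw [theta, div_lt_div_iff₀ (by nlinarith) (by norm_num)]
  nlinarith

lemma sign_of_half {n₀ : ℕ}
    (h : ∀ n ≥ n₀, cohDim W (pw X n) ≤ 2 * evenOddDim W (pw X n)) : SignStd W X := by
  by_contra hC
  have hb2 : 2 ≤ cohDim W X := by
    rw [cohDim_eq_total]
    exact two_le_total hC
  obtain ⟨n, hn, hn1, hlt⟩ := belowTheta hC (1 / 2) (theta_lt hb2) n₀
  have h1 := h n hn
  obtain ⟨n, rfl⟩ := Nat.exists_eq_add_of_le' hn1
  rw [cohDim_pw] at h1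
  have h2 : ((cohDim W X ^ (n + 1) : ℕ) : ℝ) ≤ ((2 * evenOddDim W (pw X (n + 1)) : ℕ) : ℝ) := by
    exact_mod_cast h1
  push_cast at h2
  linarith

/-- **One half suffices.** -/
theorem oneHalf (W : WeilCohomology.{u, v} ops) : OneHalf W := by
  have hof : ∀ Y : 𝒱.Obj, SignStd W Y → cohDim W Y ≤ 2 * evenOddDim W Y := by
    intro Y h
    rw [eq_of_sign h]
    omega
  refine ⟨fun X => ⟨fun h => ⟨1, fun n hn => ?_⟩, fun ⟨n₀, h⟩ => sign_of_half h⟩,
    fun h Y => hof Y (h Y), fun h X => sign_of_half (n₀ := 0) fun n _ => h _⟩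
  obtain ⟨n, rfl⟩ := Nat.exists_eq_add_of_le' hn
  exact hof _ (signStd_pw h n)

end Pool.Agent.Run7.h301.WC
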